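import Mathlib

namespace Pool.Agent.Results.MP_7e332b_co.Full

open Function

/-- removing `r` counters from heap `i` is allowed under the block `a` -/
def Legal (x a : Fin 3 → ℕ) (i : Fin 3) (r : ℕ) : Prop := 0 < r ∧ r ≤ x i ∧ r ≠ a i

/-- `W true x`: the player about to block wins from `x`; `W false x`: the player about to move wins -/
inductive W : Bool → (Fin 3 → ℕ) → Prop
  | blk (x a : Fin 3 → ℕ) (ha : ∀ i, 0 < a i)
      (h : ∀ i r, Legal x a i r → W false (update x i (x i - r))) : W true x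
  | mov (x : Fin 3 → ℕ) (i : (Fin 3 → ℕ) → Fin 3) (r : (Fin 3 → ℕ) → ℕ)
      (hl : ∀ a, (∀ j, 0 < a j) → Legal x a (i a) (r a))
      (h : ∀ a, (∀ j, 0 < a j) → W true (update x (i a) (x (i a) - r a))) : W false x

def N (x : Fin 3 → ℕ) : ℕ := x 0 / 2 ^^^ x 1 / 2 ^^^ x 2 / 2

theorem excl {b : Bool} {x : Fin 3 → ℕ} (h : W b x) : ¬ W (!b) x := by
  induction h with
  | blk x a ha _ ih => intro g; cases g with | mov _ i r hl h => exact ih _ _ (hl a ha) (h a ha)
  | mov x i r hl _ ih => intro g; cases g with | blk _ a ha h => exact ih a ha (h _ _ (hl a ha))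

theorem change (x : Fin 3 → ℕ) (i : Fin 3) (y : ℕ) (h : N x = 0) (h' : N (update x i y) = 0) :
    y / 2 = x i / 2 := by
  rw [← h] at h'
  fin_cases i <;> simpa [N] using h'

theorem fix (x : Fin 3 → ℕ) (h : N x ≠ 0) : ∃ i t, t < x i / 2 ∧ ∀ y, y / 2 = t → N (update x i y) = 0 := by
  rcases Nat.xor_trichotomy h with h | h | h
  · exact ⟨0, _, h, fun y e => by simp [N, e]⟩
  · exact ⟨1, _, h, fun y e => by simp [N, e, Nat.xor_comm (x 2 / 2)]⟩
  · exact ⟨2, _, h, fun y e => by simp [N, e]⟩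

theorem main (n : ℕ) : ∀ x : Fin 3 → ℕ, x 0 + x 1 + x 2 < n → W (N x == 0) x := by
  induction n with
  | zero => intro x h; omega
  | succ n ih =>
    intro x hx
    have k : ∀ i r, 0 < r → r ≤ x i → W (N (update x i (x i - r)) == 0) (update x i (x i - r)) :=
      fun i r h1 h2 => ih _ (by fin_cases i <;> simp at h2 ⊢ <;> omega)
    by_cases h : N x = 0
    · rw [beq_iff_eq.2 h]
      refine .blk x (fun _ => 1) (fun _ => one_pos) fun i r ⟨h1, h2, h3⟩ => ?_
      have := k i r h1 h2
      rwa [beq_eq_false_iff_ne.2 fun e => by have := change x i _ h e; dsimp only at h3; omega] at this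
    · rw [beq_eq_false_iff_ne.2 h]
      obtain ⟨i, t, h1, h2⟩ := fix x h
      refine .mov x (fun _ => i) (fun a => if a i = x i - 2 * t then x i - 2 * t - 1 else x i - 2 * t)
        (fun a _ => by unfold Legal; split_ifs <;> omega) fun a _ => ?_
      have := k i (if a i = x i - 2 * t then x i - 2 * t - 1 else x i - 2 * t)
        (by split_ifs <;> omega) (by split_ifs <;> omega)
      rwa [beq_iff_eq.2 (h2 _ (by split_ifs <;> omega))] at this

theorem result (x : Fin 3 → ℕ) :
    (W true x ↔ x 0 / 2 ^^^ x 1 / 2 ^^^ x 2 / 2 = 0) ∧ (W false x ↔ ¬ W true x) := by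
  have h := main _ x (Nat.lt_succ_self _)
  by_cases e : N x = 0
  · rw [beq_iff_eq.2 e] at h
    exact ⟨iff_of_true h e, iff_of_false (excl h) (not_not.2 h)⟩
  · rw [beq_eq_false_iff_ne.2 e] at h
    exact ⟨iff_of_false (excl h) e, iff_of_true h (excl h)⟩

end Pool.Agent.Results.MP_7e332b_co.Full
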